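import Pool.Agent.Helper867_EX.VoiMain

/-!
# Voisin's alternating sums of zero-cycles on surfaces with complex multiplication

Voisin's conjecture: for a surface `S`, zero-cycles `α_1, …, α_n` in the Albanese kernel
`F^2 CH_0(S)_ℚ` and `n > p_g(S)` the alternating sum of the exterior products
`α_σ(1) × ⋯ × α_σ(n)` is zero in `CH_0(S^n)_ℚ`.

`𝒱` is a class of smooth projective irreducible varieties closed under products (for the
problem: all complex ones), `C` the Chow groups with rational coefficients and `H` a Weil cohomology
theory (the Betti cohomology with complex coefficients), in the form of their formal properties, and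
`F S` is the space `H^{2,0}(S)`, with the properties `IsForms`: functoriality, a consequence of the
theorem of Lefschetz on classes of type `(1, 1)` (a correspondence between surfaces which
annihilates the holomorphic two-forms acts on the Albanese kernel like a homologically trivial
one), and `u` acts on all spaces `H^{2,0}(E × D) = H^{1,0}(E) ⊗ H^{1,0}(D)` as the same scalar.

Let `E` be an elliptic curve with an endomorphism `u`, `u ^ 2 = -d < 0`, and let `S` be a surface
dominated by a product `E × D`, where `D` is any curve: the isotrivial elliptic surfaces whose fibres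
are isogenous to `E`, of arbitrary geometric genus, for example the K3 surfaces and all other
surfaces `y^2 = x^3 + f(t)`. The domination `b`, with `b ∘ ᵗb = N`, gives the self-correspondence
`U = N⁻¹ b ∘ (u × 1)^* ∘ ᵗb` of `S`, the complex multiplication.

**Theorem.** Let `n ≥ 2`, let `α_1, …, α_n ∈ F^2 CH_0(S)_ℚ`, let `s_1, …, s_n : W ⟶ S` be morphisms
(for example the projections of `W = S^n`), and let
`A(α) = ∑_σ sign(σ) s_1^* α_σ(1) ⋯ s_n^* α_σ(n)` be the alternating sum.

1. `A` is multilinear over the field `ℚ(√-d)`: let `V ∈ CH^2(S × S)_ℚ` act on `H^{2,0}(S)` like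
  `a + c U`, `a`, `c` rational (for example `V = U`, or the graph of an automorphism which acts on
  the two-forms as a root of unity in `ℚ(√-d)`). Then
  `A(…, V α_i, …, α_j, …) = A(…, α_i, …, V α_j, …)`.
2. `A(α) = 0` if one of the `α_j` is a sum of zero-cycles `X_* β`, where `X ∈ CH^2(T × S)_ℚ` is a
  correspondence with `[X]^* = 0` on `H^{2,0}(S)`, `β ∈ F^2 CH_0(T)_ℚ`, and `T` is a surface dominated by a
  product of `E` with a curve. (The conjecture of Bloch predicts `X_* β = 0`.)
3. `A(α) = 0` if `α_1, …, α_n` are linearly dependent over `ℚ(√-d)` modulo the cycles of 2: if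
  `α_j = ∑_{i ≠ j} V_i α_i + ω` with `V_i` as in 1. and `ω` a sum of cycles as in 2. For
  example `α × V α = V α × α` in `CH_0(S × S)_ℚ`.

## Proof

For zero-cycles `a(x, t)` and `b(y, s)` on `E × Y` and `E × Y'` with push-forwards zero on `Y` and `Y'` the
exterior product is antisymmetric in the points `x`, `y` of `E`; so
`a(u x, t) b(y, s) = - a(u y, t) b(x, s) = a(x, t) b(u y, s)`. This implies
`U α × β = α × U β` on the Albanese kernels. A correspondence `X` as in 2. anticommutes with the
complex multiplication, and this implies `γ × X β = 0`. So the factors `X β` can be dropped and the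
`V_i` can be moved from one factor to another one in the terms of the alternating sum, which is the
determinant of the matrix `(s_i^* α_j)`; and `A(…, α_i, …, V α_i, …)` changes its sign if the two
entries are exchanged, while 1. says that it does not.
-/

set_option autoImplicit false

open CategoryTheory AlgebraicGeometry

universe u v w

namespace Pool.Agent.Results.MP_83b46e_ag.CMBilinearity

open Pool.Agent.H914 Pool.Agent.H914.VarClass Pool.Agent.H914.VarClass.Obj Pool.Agent.W492.BB
  Pool.Agent.TH133 Pool.Agent.Y152.AS Pool.Agent.Helper867_CM.St Pool.Agent.Helper867_EX.St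

/-- Let `S` be a surface dominated by the product of a curve with an elliptic curve `E` with complex
multiplication `u`, `u ^ 2 = -d < 0`. Voisin's alternating sum is multilinear over `ℚ(√-d)`, it does
not change if images of correspondences which annihilate the holomorphic two-forms are added to its
entries, and it vanishes if its entries are dependent over `ℚ(√-d)` modulo such images. -/
theorem result {k : Type u} [Field k] {𝒱 : VarClass k} {C : TheoryData.{u, v, 0} 𝒱 ℚ}
    [IsChowProj C] {K : Type w} [Field K] (H : WeilTheoryData.{u, v, w} C K) [IsWeilProj H]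
    (hPic : Picard H) (E : 𝒱.Obj) [GroupLaw E] (u : E ⟶ E) (d : ℕ)
    (hE : CMCurve C E u d) (F : ∀ S : 𝒱.Obj, H.A S → Prop) (hF : IsForms F u)
    (D S : 𝒱.Obj) (b : C.A ((E.prod D).prod S)) (N : ℚ) (hb : IsDom b N)
    (n : ℕ) (hn : 2 ≤ n) (α : Fin n → C.A S) (hα : ∀ i, InAlbKer C (α i)) (W : 𝒱.Obj)
    (s : Fin n → (W ⟶ S)) :
    (∀ (a c : ℚ) (V : C.A (S.prod S)), IsScalar F a c (cmul u b N) V →
      ∀ i j, altSum (applyAt V i α) s = altSum (applyAt V j α) s) ∧
    (HasNullEntry E F α → AltZero α s) ∧
    (Dependent E F (cmul u b N) α → AltZero α s) :=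
  Pool.Agent.Helper867_EX.voi_main H hPic E u d hE F hF D S b N hb n hn α hα W s

end Pool.Agent.Results.MP_83b46e_ag.CMBilinearity
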