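import Pool.Agent.H802Voi.Main

/-!
# Voisin's conjecture for surfaces built from quotients of products of curves (MP_83b46e_ag)

Voisin's conjecture: for a surface `S`, classes `α_1, …, α_n` in the Albanese kernel of `S` and
`n > p_g(S)`, the alternating sum of the exterior products `α_σ(1) × ⋯ × α_σ(n)` is zero in
`CH_0(S^n)`.

We prove it for the quotients `(X × Y) / G` of products of curves by the diagonal actions of finite
groups `G` all of whose irreducible representations which occur in both `H^1(X)` and `H^1(Y)` are
real (for example `G` may be any product of symmetric groups, dihedral groups and other finite
Coxeter groups, and `X`, `Y` any curves with an action of `G`), for the quotients of `X × X` by such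
a group and by the exchange of the factors (for example the symmetric squares of all curves), for
the surfaces dominated by such quotients, and for the surfaces generated by such surfaces. In the
first case the bound is `N = ∑_V γ(V) γ'(V)`, in the second case `N = ∑_V γ(V) (γ(V) - 1) / 2`,
where `V` runs over the irreducible representations of `G` and `γ(V)`, `γ'(V)` are the
multiplicities of `V` in `H^0(X, K_X)` and in `H^0(Y, K_Y)`; these are the geometric genera of the
quotients. So there are surfaces of every kind of geometric genus among them.

## Outline of the proof

Let `e_V` be the symmetric idempotent of the group algebra attached to the first vector of an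
orthonormal basis of the real representation `V`. It defines a projector `p_V = ᵗp_V` of `h^1(X)`;
the motive `h^1(X)_V` is oddly finite-dimensional of rank `2 γ(V)` by Kimura, and the pull-backs of
`p_V` satisfy the relation: the sum over all perfect matchings of `2 γ(V) + 2` points is zero. Since
products of `p_V` with two zero-cycles vanish for dimension reasons, the symmetrization of a product
of zero-cycles over more than `γ(V)` points is zero. An invariant zero-cycle on `X × Y` is, up to
classes which are mapped to zero on `S`, a sum of classes `β_V` in `h^1(X)_V ⊗ h^1(Y)_V`. The
alternating sum of products of classes of type `V` is killed if the number of factors is greater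
than `γ(V) γ'(V)` (for symmetric classes: than `γ(V) (γ(V) - 1) / 2`), by invariant theory for the
general linear group (the double centralizer theorem), and then the determinants of sums of types
vanish in size greater than the sum of these numbers. The case `G = (ℤ/2)^r` of the first kind of
quotients is in `Pool.Agent.R904.Voi`, whose combinatorial part is used here.
-/

open CategoryTheory AlgebraicGeometry

universe u v w

namespace Pool.Agent.Results.MP_83b46e_ag.RealProductQuotients

open Pool.Agent.H914 Pool.Agent.H914.VarClass Pool.Agent.H914.VarClass.Obj Pool.Agent.W492.BB
  Pool.Agent.H802Voi

/-- Let `S` be a surface which is generated, with the bound `N`, by surfaces dominated by quotients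
`(X × Y) / G` of products of curves, respectively `(X × X) / (G × ℤ/2)`, by finite groups `G` whose
irreducible representations occurring in `H^1(X)` and `H^1(Y)` are real. Then for all `n > N`, all
`α_1, …, α_n` in the Albanese kernel of `S` and all morphisms `s_1, …, s_n : W ⟶ S` (for example the
projections of `S^n`) the class `∑_σ sign(σ) s_1^*(α_σ(1)) ⋯ s_n^*(α_σ(n))` is zero. The Chow groups
have coefficients in a field `F` of characteristic zero. -/
theorem result {k : Type u} [Field k] {𝒱 : VarClass k} {F : Type w} [Field F] [CharZero F]
    (C : TheoryData.{u, v, w} 𝒱 F) [IsChowOver C] {S : 𝒱.Obj} {N : ℕ} (hS : Generated C S N)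
    {n : ℕ} (hn : N < n) (α : Fin n → C.A S) (hα : ∀ i, InAlbaneseKernel C (α i)) {W : 𝒱.Obj}
    (s : Fin n → (W ⟶ S)) : alternatingSum C α s = 0 := by
  rw [alternatingSum_eq]
  exact (main hS).2 n hn α hα W s

end Pool.Agent.Results.MP_83b46e_ag.RealProductQuotients
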